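import Pool.Agent.Work.MP_2738db_nt_Y_helper93.ARG

set_option autoImplicit false

/-!
Two logarithms over the Gaussian integers: reduction to `argLog` (block ARG of theorem Y, helper93).
-/

namespace Pool.Agent.Work.MP_2738db_nt_Y.helper93

open Finset BigOperators ComplexConjugate

/-- a coprime representation of an odd integer generates coprime conjugates -/
lemma isCoprime_star {u v : ℤ} (h : IsCoprime u v) (hodd : Odd (u ^ 2 + v ^ 2)) :
    IsCoprime (⟨u, v⟩ : GaussianInt) (star (⟨u, v⟩ : GaussianInt)) := by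
  obtain ⟨a, b, hab⟩ := h
  obtain ⟨m, hm⟩ := hodd
  -- 2 = a (α + α') - i b (α - α')
  have hN : (⟨u, v⟩ : GaussianInt) * star (⟨u, v⟩ : GaussianInt) = ((2 * m + 1 : ℤ) : GaussianInt) := by
    rw [← Zsqrtd.norm_eq_mul_conj, Zsqrtd.norm_def, ← hm]
    congr 1
    ring
  have h2 : ((a : ℤ) : GaussianInt) * ((⟨u, v⟩ : GaussianInt) + star (⟨u, v⟩ : GaussianInt)) -
      (⟨0, b⟩ : GaussianInt) * ((⟨u, v⟩ : GaussianInt) - star (⟨u, v⟩ : GaussianInt)) = 2 := by
    ext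
    · simp [Zsqrtd.re_mul]
      linear_combination 2 * hab
    · simp [Zsqrtd.im_mul]
  refine ⟨star (⟨u, v⟩ : GaussianInt) - (m : GaussianInt) * (((a : ℤ) : GaussianInt) - (⟨0, b⟩ : GaussianInt)),
    - (m : GaussianInt) * (((a : ℤ) : GaussianInt) + (⟨0, b⟩ : GaussianInt)), ?_⟩
  have h3 : ((2 * m + 1 : ℤ) : GaussianInt) = 2 * (m : GaussianInt) + 1 := by push_cast; ring
  rw [h3] at hN
  linear_combination hN - (m : GaussianInt) * h2

/-- powers of `α` and its conjugate are different -/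
lemma pow_ne_star_pow {u v : ℤ} (h : IsCoprime u v) (hu : u ≠ 0) (hv : v ≠ 0)
    (hodd : Odd (u ^ 2 + v ^ 2)) {n : ℕ} (hn : 1 ≤ n) :
    (⟨u, v⟩ : GaussianInt) ^ n ≠ (star (⟨u, v⟩ : GaussianInt)) ^ n := by
  intro he
  have h1 := (isCoprime_star h hodd).pow (m := n) (n := n)
  rw [← he] at h1
  have h2 : IsUnit ((⟨u, v⟩ : GaussianInt) ^ n) := isCoprime_self.mp h1
  have h3 : IsUnit (⟨u, v⟩ : GaussianInt) := (isUnit_pow_iff (by omega)).mp h2
  have h4 := Zsqrtd.norm_eq_one_iff.mpr h3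
  have h5 : (⟨u, v⟩ : GaussianInt).norm = u ^ 2 + v ^ 2 := by
    rw [Zsqrtd.norm_def]; ring
  have h6 : 0 < u ^ 2 := by positivity
  have h7 : 0 < v ^ 2 := by positivity
  rw [h5] at h4
  have h8 : ((u ^ 2 + v ^ 2).natAbs : ℤ) = u ^ 2 + v ^ 2 := Int.natAbs_of_nonneg (by omega)
  rw [h4] at h8
  push_cast at h8
  omega

/-- the real numbers of the reduction -/
lemma final_num {A ν s d : ℝ} (hA : 1 ≤ A) (hν : 1 ≤ ν)
    (hd : Real.exp (-(10 ^ 8 * A * ν ^ 2)) / 8 ≤ d) (hs : 2 / Real.pi * d ≤ s) :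
    Real.exp (-(10 ^ 9 * A * ν ^ 2)) ≤ s := by
  have hpi := Real.pi_lt_d2
  have hpi0 := Real.pi_pos
  have hAν : 1 ≤ A * ν ^ 2 := one_le_mul_of_one_le_of_one_le hA (one_le_pow₀ hν)
  have h1 : Real.exp (-(10 ^ 9 * A * ν ^ 2)) ≤ Real.exp (-(10 ^ 8 * A * ν ^ 2)) * Real.exp (-(16 : ℝ)) := by
    rw [← Real.exp_add]
    apply Real.exp_le_exp.mpr
    have h2 : 10 ^ 9 * A * ν ^ 2 = 10 ^ 9 * (A * ν ^ 2) := by ring
    have h3 : 10 ^ 8 * A * ν ^ 2 = 10 ^ 8 * (A * ν ^ 2) := by ring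
    rw [h2, h3]
    linarith
  have h2 : Real.exp (-(16 : ℝ)) ≤ 1 / 16 := by
    rw [Real.exp_neg, ← one_div]
    apply one_div_le_one_div_of_le (by norm_num)
    have := Real.add_one_le_exp (16 : ℝ)
    linarith
  have h3 : Real.exp (-(10 ^ 8 * A * ν ^ 2)) * Real.exp (-(16 : ℝ)) ≤
      Real.exp (-(10 ^ 8 * A * ν ^ 2)) * (1 / 16) :=
    mul_le_mul_of_nonneg_left h2 (Real.exp_pos _).le
  have hE := Real.exp_pos (-(10 ^ 8 * A * ν ^ 2))
  set E := Real.exp (-(10 ^ 8 * A * ν ^ 2)) with hEdef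
  have h4 : 1 / 2 ≤ 2 / Real.pi := by
    rw [div_le_div_iff₀ (by norm_num) hpi0]
    linarith
  have hd0 : 0 ≤ d := by linarith
  have h5 : 1 / 2 * d ≤ 2 / Real.pi * d := mul_le_mul_of_nonneg_right h4 hd0
  linarith

/-- **ARG** -/
theorem stmt_Arg : Stmt_Arg := by
  refine ⟨10 ^ 9, by norm_num, ?_⟩
  intro u v k hcop hu hv hodd hk
  set α : GaussianInt := ⟨u, v⟩ with hαdef
  set a : ℂ := GaussianInt.toComplex α with ha
  set ρ : ℝ := ‖a‖ with hρ
  set A : ℝ := Real.log ((u : ℝ) ^ 2 + (v : ℝ) ^ 2) with hAdef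
  set ν : ℝ := 1 + Real.log k with hνdef
  have hk1 : (1 : ℝ) ≤ k := by exact_mod_cast hk
  have hkpos : (0 : ℝ) < k := by linarith
  have hν1 : 1 ≤ ν := by have := Real.log_nonneg hk1; linarith
  have hN3 : (3 : ℤ) ≤ u ^ 2 + v ^ 2 := by
    have h6 : 0 < u ^ 2 := by positivity
    have h7 : 0 < v ^ 2 := by positivity
    obtain ⟨m, hm⟩ := hodd
    omega
  have hN3r : (3 : ℝ) ≤ (u : ℝ) ^ 2 + (v : ℝ) ^ 2 := by exact_mod_cast hN3
  have hNpos : (0 : ℝ) < (u : ℝ) ^ 2 + (v : ℝ) ^ 2 := by linarith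
  have hA1 : 1 ≤ A := by
    rw [hAdef, Real.le_log_iff_exp_le hNpos]
    have := Real.exp_one_lt_d9
    linarith
  have hρ2 : ρ ^ 2 = (u : ℝ) ^ 2 + (v : ℝ) ^ 2 := by
    rw [hρ, ← Complex.normSq_eq_norm_sq, ha, hαdef, GaussianInt.toComplex_def, Complex.normSq_apply]
    simp
    ring
  have hα0 : α ≠ 0 := by
    intro h0
    have := congrArg Zsqrtd.re h0
    simp [hαdef] at this
    exact hu this
  have ha0 : a ≠ 0 := by
    rw [ha]
    intro h0
    exact hα0 ((GaussianInt.toComplex_eq_zero).mp h0)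
  have hρpos : 0 < ρ := norm_pos_iff.mpr ha0
  have hlogρ : Real.log ρ = A / 2 := by
    have h1 : Real.log (ρ ^ 2) = A := by rw [hρ2]
    rw [Real.log_pow] at h1
    push_cast at h1
    linarith
  set θ : ℝ := Complex.arg a with hθ
  have haθ : a = (ρ : ℂ) * Complex.exp ((θ : ℂ) * Complex.I) := by
    rw [hρ, hθ, Complex.norm_mul_exp_arg_mul_I]
  have hca : conj a = (ρ : ℂ) * Complex.exp (-((θ : ℂ) * Complex.I)) := by
    rw [haθ, map_mul, Complex.conj_ofReal, ← Complex.exp_conj, map_mul, Complex.conj_ofReal,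
      Complex.conj_I, mul_neg]
  have hca0 : conj a ≠ 0 := by
    rw [Ne, map_eq_zero]
    exact ha0
  have hρc : (ρ : ℂ) ≠ 0 := by exact_mod_cast hρpos.ne'
  have hx : a / conj a = Complex.exp (((2 * θ : ℝ) : ℂ) * Complex.I) := by
    rw [hca]
    conv_lhs => rw [haθ]
    rw [mul_div_mul_left _ _ hρc, ← Complex.exp_sub]
    congr 1
    push_cast
    ring
  have hrootpow : ∀ n : ℕ, 1 ≤ n → (a / conj a) ^ n ≠ 1 := by
    intro n hn h1
    rw [div_pow, div_eq_one_iff_eq (pow_ne_zero _ hca0)] at h1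
    apply pow_ne_star_pow hcop hu hv hodd hn
    apply GaussianInt.toComplex_injective
    rw [map_pow, map_pow, GaussianInt.toComplex_star]
    exact h1
  have hx0 : a / conj a ≠ 0 := div_ne_zero ha0 hca0
  have hroot : ∀ m n : ℕ, (a / conj a) ^ m = (a / conj a) ^ n → m = n := by
    have key : ∀ m n : ℕ, m < n → (a / conj a) ^ m ≠ (a / conj a) ^ n := by
      intro m n hmn he
      obtain ⟨d, rfl⟩ : ∃ d, n = m + (d + 1) := ⟨n - m - 1, by omega⟩
      rw [pow_add] at he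
      have h1 : (a / conj a) ^ (d + 1) = 1 := by
        have h2 := pow_ne_zero m hx0
        have h3 : (a / conj a) ^ m * (a / conj a) ^ (d + 1) = (a / conj a) ^ m * 1 := by
          rw [mul_one]; exact he.symm
        exact mul_left_cancel₀ h2 h3
      exact hrootpow _ (by omega) h1
    intro m n h
    rcases lt_trichotomy m n with h1 | h1 | h1
    · exact absurd h (key m n h1)
    · exact h1
    · exact absurd h.symm (key n m h1)
  -- the nearest multiple of π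
  have hpi0 := Real.pi_pos
  set j : ℤ := round (k * θ / Real.pi) with hj
  set δ : ℝ := k * θ - j * Real.pi with hδ
  have hδ2 : |δ| ≤ Real.pi / 2 := by
    have h1 := abs_sub_round (k * θ / Real.pi)
    rw [← hj] at h1
    have h2 : δ = (k * θ / Real.pi - j) * Real.pi := by rw [hδ]; field_simp
    rw [h2, abs_mul, abs_of_pos hpi0]
    calc |k * θ / Real.pi - j| * Real.pi ≤ 1 / 2 * Real.pi :=
          mul_le_mul_of_nonneg_right h1 hpi0.le
      _ = _ := by ring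
  have hsinδ : |Real.sin (k * θ)| = |Real.sin δ| := by
    have h1 : (k : ℝ) * θ = δ + j * Real.pi := by rw [hδ]; ring
    rw [h1, Real.sin_add_int_mul_pi, abs_mul, abs_zpow, abs_neg, abs_one, one_zpow, one_mul]
  have hsin : 2 / Real.pi * |δ| ≤ |Real.sin (k * θ)| := by
    rw [hsinδ]
    exact Real.mul_abs_le_abs_sin hδ2
  -- the imaginary part
  have him : ((((α ^ k).im : ℤ)) : ℝ) = ρ ^ k * Real.sin (k * θ) := by
    rw [GaussianInt.intCast_im, map_pow, ← ha]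
    conv_lhs => rw [haθ]
    rw [mul_pow, ← Complex.exp_nat_mul]
    have h1 : ((k : ℂ) * ((θ : ℂ) * Complex.I)) = (((k * θ : ℝ)) : ℂ) * Complex.I := by
      push_cast; ring
    rw [h1, ← Complex.ofReal_pow, Complex.im_ofReal_mul, Complex.exp_ofReal_mul_I_im]
  have hρk : ρ ^ k = Real.exp (k / 2 * A) := by
    have h1 : ρ ^ k = Real.exp (k * Real.log ρ) := by
      rw [Real.exp_nat_mul, Real.exp_log hρpos]
    rw [h1, hlogρ]
    congr 1
    ring
  rw [him, abs_mul, abs_of_pos (pow_pos hρpos k), hρk]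
  have hgoal : Real.exp (-(10 ^ 9 * A * ν ^ 2)) ≤ |Real.sin (k * θ)| → Real.exp (↑k / 2 * A - 10 ^ 9 * A * ν ^ 2) ≤
      Real.exp (↑k / 2 * A) * |Real.sin (↑k * θ)| := by
    intro h
    rw [sub_eq_add_neg, Real.exp_add]
    exact mul_le_mul_of_nonneg_left h (Real.exp_pos _).le
  apply hgoal
  refine final_num hA1 hν1 ?_ hsin
  -- lowest terms
  set g : ℕ := Int.gcd (4 * j) k with hg
  have hgpos : 0 < g := Int.gcd_pos_of_ne_zero_right _ (by exact_mod_cast (by omega : k ≠ 0))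
  obtain ⟨ℓ', hℓ'⟩ : ∃ ℓ' : ℕ, k = g * ℓ' := by
    have h1 : (g : ℤ) ∣ (k : ℤ) := Int.gcd_dvd_right _ _
    exact_mod_cast h1
  obtain ⟨k₁, hk₁⟩ : ∃ k₁ : ℤ, 4 * j = g * k₁ := Int.gcd_dvd_left _ _
  have hℓ1 : 1 ≤ ℓ' := by
    rcases Nat.eq_zero_or_pos ℓ' with h0 | h0
    · rw [h0, mul_zero] at hℓ'; omega
    · exact h0
  have hcop1 : Int.gcd k₁ ℓ' = 1 := by
    have h1 : Int.gcd (4 * j) k = g * Int.gcd k₁ ℓ' := by
      rw [hk₁, hℓ']
      push_cast
      rw [Int.gcd_mul_left]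
      simp
    rw [← hg] at h1
    have h2 : g * Int.gcd k₁ ℓ' = g * 1 := by rw [mul_one]; exact h1.symm
    exact Nat.eq_of_mul_eq_mul_left hgpos h2
  set lm : ℝ := 2 * δ / k with hlm
  have hgr : (0 : ℝ) < g := by exact_mod_cast hgpos
  have hℓr : (1 : ℝ) ≤ ℓ' := by exact_mod_cast hℓ1
  have hℓpos : (0 : ℝ) < ℓ' := by linarith
  have hkr : (k : ℝ) = g * ℓ' := by exact_mod_cast hℓ'
  have hk₁r : 4 * (j : ℝ) = g * k₁ := by exact_mod_cast hk₁
  have h2θ : 2 * θ = k₁ * (Real.pi / (2 * ℓ')) + lm := by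
    have h1 : θ = (δ + j * Real.pi) / k := by rw [hδ]; field_simp; ring
    have h2 : (j : ℝ) = g * k₁ / 4 := by linarith
    rw [hlm, h1, h2, hkr]
    field_simp
    ring
  have hlmδ : |lm| ≤ 2 * |δ| := by
    rw [hlm, abs_div, abs_mul, abs_of_pos hkpos, abs_of_pos (show (0 : ℝ) < 2 by norm_num)]
    exact div_le_self (by positivity) hk1
  by_cases hcase : 10 ^ 4 * ν ≤ ℓ'
  · -- the determinant bound
    have hmod : (0 : ℤ) < 4 * (ℓ' : ℤ) := by omega
    set k₀ : ℕ := (k₁ % (4 * (ℓ' : ℤ))).toNat with hk₀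
    have hk₀z : (k₀ : ℤ) = k₁ % (4 * (ℓ' : ℤ)) := by
      rw [hk₀, Int.toNat_of_nonneg (Int.emod_nonneg _ hmod.ne')]
    have hk₀lt : k₀ ≤ 4 * ℓ' := by
      have h1 := Int.emod_lt_of_pos k₁ hmod
      omega
    have hdiv := Int.emod_add_mul_ediv k₁ (4 * (ℓ' : ℤ))
    set q : ℤ := k₁ / (4 * (ℓ' : ℤ)) with hq
    have hk₁eq : k₁ = k₀ + 4 * ℓ' * q := by rw [hk₀z]; linarith
    have hcop2 : Nat.Coprime ℓ' k₀ := by
      rw [Nat.coprime_comm]
      have h1 : Int.gcd ((k₀ : ℤ) + 4 * ℓ' * q) ℓ' = Int.gcd (k₀ : ℤ) ℓ' := by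
        have h2 : (k₀ : ℤ) + 4 * ℓ' * q = k₀ + ℓ' * (4 * q) := by ring
        rw [h2]
        exact Int.gcd_add_mul_left_left _ _ _
      rw [← hk₁eq, hcop1] at h1
      have h3 : Int.gcd (k₀ : ℤ) (ℓ' : ℤ) = Nat.gcd k₀ ℓ' := Int.gcd_natCast_natCast _ _
      rw [h3] at h1
      exact h1.symm
    have hxk : a / conj a = Complex.exp (((k₀ * (Real.pi / (2 * ℓ')) + lm : ℝ) : ℂ) * Complex.I) := by
      rw [hx]
      have h1 : 2 * θ = (k₀ * (Real.pi / (2 * ℓ')) + lm) + q * (2 * Real.pi) := by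
        rw [h2θ, hk₁eq]
        push_cast
        field_simp
        ring
      rw [h1]
      have h2 : ((((k₀ * (Real.pi / (2 * ℓ')) + lm) + q * (2 * Real.pi) : ℝ)) : ℂ) * Complex.I =
          (((k₀ * (Real.pi / (2 * ℓ')) + lm : ℝ)) : ℂ) * Complex.I + q * (2 * Real.pi * Complex.I) := by
        push_cast
        ring
      rw [h2]
      exact Complex.exp_periodic.int_mul q _
    have hlogk : 1 + Real.log ℓ' ≤ ν := by
      rw [hνdef]
      have h1 : (ℓ' : ℝ) ≤ k := by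
        rw [hkr]
        have : (1 : ℝ) ≤ g := by exact_mod_cast hgpos
        exact le_mul_of_one_le_left hℓpos.le this
      have := Real.log_le_log hℓpos h1
      linarith
    have hmain := argLog α hα0 hroot A ν lm hcop2 hℓ1 hk₀lt hA1 (by rw [← ha, ← hρ, hlogρ]; linarith)
      hlogk hcase hxk
    have hE := Real.exp_pos (-(10 ^ 8 * A * ν ^ 2))
    have hmain2 := hmain.trans hlmδ
    rw [div_le_iff₀ (by norm_num)]
    refine hmain2.trans ?_
    have := abs_nonneg δ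
    linarith
  · -- Liouville
    rw [not_le] at hcase
    have hne := pow_ne_star_pow hcop hu hv hodd (show 1 ≤ 4 * ℓ' by omega)
    have hone : 1 ≤ ‖GaussianInt.toComplex (α ^ (4 * ℓ') - (star α) ^ (4 * ℓ'))‖ :=
      norm_gaussian_ge_one (sub_ne_zero.mpr hne)
    rw [map_sub, map_pow, map_pow, GaussianInt.toComplex_star, ← ha] at hone
    have h1 : a ^ (4 * ℓ') - (conj a) ^ (4 * ℓ') =
        (conj a) ^ (4 * ℓ') * ((a / conj a) ^ (4 * ℓ') - 1) := by
      rw [mul_sub, mul_one, div_pow, mul_div_cancel₀ _ (pow_ne_zero _ hca0)]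
    have h2 : (a / conj a) ^ (4 * ℓ') = Complex.exp (Complex.I * ((4 * ℓ' * lm : ℝ) : ℂ)) := by
      rw [hx, ← Complex.exp_nat_mul, h2θ]
      have h3 : (((4 * ℓ' : ℕ)) : ℂ) * ((((k₁ * (Real.pi / (2 * ℓ')) + lm : ℝ)) : ℂ) * Complex.I) =
          Complex.I * ((4 * ℓ' * lm : ℝ) : ℂ) + k₁ * (2 * Real.pi * Complex.I) := by
        have hℓc : (ℓ' : ℂ) ≠ 0 := by exact_mod_cast hℓpos.ne'
        push_cast
        field_simp
        ring
      rw [h3]
      exact Complex.exp_periodic.int_mul k₁ _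
    rw [h1, norm_mul, norm_pow, Complex.norm_conj, ← hρ, h2] at hone
    have h4 : ‖Complex.exp (Complex.I * ((4 * ℓ' * lm : ℝ) : ℂ)) - 1‖ ≤ 4 * ℓ' * |lm| := by
      have h5 := Real.norm_exp_I_mul_ofReal_sub_one_le (x := (4 * ℓ' * lm : ℝ))
      rw [Real.norm_eq_abs, abs_mul, abs_of_pos (show (0 : ℝ) < 4 * ℓ' by positivity)] at h5
      exact h5
    have h5 : ρ ^ (4 * ℓ') = Real.exp (2 * ℓ' * A) := by
      have h6 : ρ ^ (4 * ℓ') = Real.exp ((4 * ℓ' : ℕ) * Real.log ρ) := by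
        rw [Real.exp_nat_mul, Real.exp_log hρpos]
      rw [h6, hlogρ]
      congr 1
      push_cast
      ring
    have h6 : (ℓ' : ℝ) * |lm| ≤ 2 * |δ| := by
      rw [hlm, abs_div, abs_mul, abs_of_pos hkpos, abs_of_pos (show (0 : ℝ) < 2 by norm_num),
        mul_div_assoc', div_le_iff₀ hkpos]
      have h7 : (ℓ' : ℝ) ≤ k := by
        rw [hkr]
        have : (1 : ℝ) ≤ g := by exact_mod_cast hgpos
        exact le_mul_of_one_le_left hℓpos.le this
      have h8 := mul_le_mul_of_nonneg_right h7 (show 0 ≤ 2 * |δ| by positivity)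
      linarith
    have h7 : 1 ≤ Real.exp (2 * ℓ' * A) * (8 * |δ|) := by
      rw [h5] at hone
      refine hone.trans ?_
      apply mul_le_mul_of_nonneg_left _ (Real.exp_pos _).le
      refine h4.trans ?_
      linarith
    have h8 : Real.exp (2 * ℓ' * A) ≤ Real.exp (10 ^ 8 * A * ν ^ 2) := by
      apply Real.exp_le_exp.mpr
      have h9 : (ℓ' : ℝ) * A ≤ 10 ^ 4 * ν * A := mul_le_mul_of_nonneg_right hcase.le (by linarith)
      have h10 : ν * A ≤ ν ^ 2 * A := by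
        apply mul_le_mul_of_nonneg_right _ (by linarith)
        rw [sq]
        exact le_mul_of_one_le_left (by linarith) hν1
      have h11 : 0 ≤ ν ^ 2 * A := by positivity
      have h12 : 2 * (ℓ' : ℝ) * A = 2 * (ℓ' * A) := by ring
      have h13 : 10 ^ 8 * A * ν ^ 2 = 10 ^ 8 * (ν ^ 2 * A) := by ring
      have h14 : 10 ^ 4 * ν * A = 10 ^ 4 * (ν * A) := by ring
      rw [h12, h13]
      rw [h14] at h9
      linarith
    rw [Real.exp_neg, div_le_iff₀ (by norm_num), inv_le_iff_one_le_mul₀ (Real.exp_pos _)]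
    calc 1 ≤ Real.exp (2 * ℓ' * A) * (8 * |δ|) := h7
      _ ≤ Real.exp (10 ^ 8 * A * ν ^ 2) * (8 * |δ|) :=
          mul_le_mul_of_nonneg_right h8 (by positivity)
      _ = _ := by ring

end Pool.Agent.Work.MP_2738db_nt_Y.helper93
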