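import Pool.Agent.Work.MP_2738db_nt_Y.Interface3

/-!
# Block GAP2R: the `r`-adic gap principle from two logarithms (helper93)
-/

set_option autoImplicit false

namespace Pool.Agent.Work.MP_2738db_nt_Y.helper93

/-- superadditivity of powers -/
theorem pow_add_ltR {a b p : ℕ} (ha : 1 ≤ a) (hb : 1 ≤ b) (hp : 2 ≤ p) :
    a ^ p + b ^ p < (a + b) ^ p := by
  obtain ⟨q, rfl⟩ : ∃ q, p = q + 1 := ⟨p - 1, by omega⟩
  have hq : q ≠ 0 := by omega
  have h1 : a ^ q ≤ (a + b) ^ q := Nat.pow_le_pow_left (by omega) q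
  have h2 : b ^ q < (a + b) ^ q := Nat.pow_lt_pow_left (by omega) hq
  calc a ^ (q + 1) + b ^ (q + 1) = a * a ^ q + b * b ^ q := by ring
    _ < a * (a + b) ^ q + b * (a + b) ^ q := by
        have h3 : a * a ^ q ≤ a * (a + b) ^ q := Nat.mul_le_mul_left _ h1
        have h4 : b * b ^ q < b * (a + b) ^ q := Nat.mul_lt_mul_of_pos_left h2 hb
        omega
    _ = (a + b) ^ (q + 1) := by ring

/-- a power of `r` dividing the difference of two different powers -/
theorem log_dvd_le {r V' n a b : ℕ} {T : ℝ} (hr : r.Prime) (hn : 1 ≤ n) (ha : 1 ≤ a) (hb : 1 ≤ b)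
    (hab : a ≠ b) (h : (r : ℤ) ^ V' ∣ (a : ℤ) ^ n - (b : ℤ) ^ n) (haT : Real.log a ≤ T)
    (hbT : Real.log b ≤ T) : V' * Real.log r ≤ n * T := by
  have key : ∀ {a b : ℕ}, 1 ≤ b → b < a → (r : ℤ) ^ V' ∣ (a : ℤ) ^ n - (b : ℤ) ^ n →
      Real.log a ≤ T → V' * Real.log r ≤ n * T := by
    intro a b hb hab h haT
    have h1 : b ^ n < a ^ n := Nat.pow_lt_pow_left hab (by omega)
    have h2 : (0 : ℤ) < (a : ℤ) ^ n - (b : ℤ) ^ n := by
      have : ((b ^ n : ℕ) : ℤ) < ((a ^ n : ℕ) : ℤ) := by exact_mod_cast h1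
      push_cast at this
      linarith
    have h3 := Int.le_of_dvd h2 h
    have h4 : (r : ℤ) ^ V' ≤ (a : ℤ) ^ n := by
      have : (0 : ℤ) ≤ (b : ℤ) ^ n := by positivity
      linarith
    have h5 : (r : ℝ) ^ V' ≤ (a : ℝ) ^ n := by exact_mod_cast h4
    have hr0 : (0 : ℝ) < r := by exact_mod_cast hr.pos
    have h6 := Real.log_le_log (by positivity) h5
    rw [Real.log_pow, Real.log_pow] at h6
    exact h6.trans (mul_le_mul_of_nonneg_left haT (by positivity))
  rcases lt_or_gt_of_ne hab with h' | h'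
  · apply key ha h' _ hbT
    have := (dvd_neg.mpr h)
    rwa [neg_sub] at this
  · exact key hb h' h haT

theorem coreR (C₁ : ℝ) (hC₁ : 1 ≤ C₁)
    (hArr : ∀ (r X₁ X₂ Y k₀ l j V : ℕ) (A B : ℝ), r.Prime → ¬ r ∣ X₁ → ¬ r ∣ X₂ →
    ¬ r ∣ Y → 2 ≤ Y → 1 ≤ k₀ → 1 ≤ l → 1 ≤ j → Nat.Coprime l k₀ → 1 ≤ A → 1 ≤ B →
    Real.log X₁ ≤ A → Real.log X₂ ≤ A → Real.log Y ≤ B → (k₀ : ℝ) ≤ A * l →
    C₁ * r * B * (1 + Real.log l) ≤ l →
    (r : ℤ) ^ V ∣ ((X₁ : ℤ) ^ l) ^ (2 * j) - ((X₂ : ℤ) ^ l * (Y : ℤ) ^ k₀) ^ (2 * j) →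
    V * Real.log r ≤ C₁ * r ^ 3 * (A * B) * (1 + Real.log l) ^ 2 + Real.log j)
    (hLtr : Stmt_Ltr)
    (p k c N U r ν : ℕ) (M : ℝ) (hp : p.Prime) (h3 : 3 ≤ p) (hk : 2 ≤ k) (hc : 1 ≤ c) (hN : 1 ≤ N)
    (hr : r.Prime) (hrc : ¬ r ∣ c) (hrN : ¬ r ∣ N)
    (hmod : (r : ℤ) ^ ν ∣ (c : ℤ) ^ (2 * k) - (N : ℤ) ^ (2 * p)) (hne : c ^ k ≠ N ^ p)
    (hcM : k * Real.log c ≤ M) (hNM : p * Real.log N ≤ M + p * Real.log 2)
    (hM : k * Real.log 2 ≤ M) (hMp : p * Real.log 2 ≤ M)
    (hU : U ^ k = N ∨ (U ^ k = p * N ∧ r ≠ p))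
    (hreg : 20 * C₁ * r * (p * Real.log k ^ 3) ≤ k) :
    p * ν * Real.log r ≤ 60 * C₁ * r ^ 3 * (p * Real.log k ^ 3 / k) * M := by
  have hlog2 := Real.log_two_gt_d9
  have hlog2' := Real.log_two_lt_d9
  set L := Real.log k with hL
  have hkpos : (0:ℝ) < k := by exact_mod_cast (by omega : 0 < k)
  have hppos : (0:ℝ) < p := by exact_mod_cast (by omega : 0 < p)
  have hk2 : (2:ℝ) ≤ k := by exact_mod_cast hk
  have hr2 : (2:ℝ) ≤ r := by exact_mod_cast hr.two_le
  have hr1 : (1:ℝ) ≤ r := by linarith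
  have hr0 : (0:ℝ) < r := by linarith
  have hr3 : (1:ℝ) ≤ (r:ℝ) ^ 3 := one_le_pow₀ hr1
  have hrr3 : (r:ℝ) ≤ (r:ℝ) ^ 3 := by
    have : (r:ℝ) ^ 1 ≤ (r:ℝ) ^ 3 := pow_le_pow_right₀ hr1 (by norm_num)
    rwa [pow_one] at this
  have hL2 : Real.log 2 ≤ L := Real.log_le_log (by norm_num) hk2
  have hL069 : 0.69 ≤ L := by linarith
  have hLpos : 0 < L := by linarith
  have hL3 : 1 / 4 ≤ L ^ 3 := by
    have : (0.69 : ℝ) ^ 3 ≤ L ^ 3 := pow_le_pow_left₀ (by norm_num) hL069 3
    norm_num at this ⊢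
    linarith
  have hLsq : (0.47 : ℝ) ≤ L ^ 2 := by
    have : (0.69 : ℝ) ^ 2 ≤ L ^ 2 := pow_le_pow_left₀ (by norm_num) hL069 2
    norm_num at this ⊢
    linarith
  have hMpos : 0 < M := lt_of_lt_of_le (by positivity) hM
  -- `p ≤ k`
  have hpk : (p : ℝ) ≤ k := by
    have h1 : (p : ℝ) * 1 ≤ 20 * C₁ * r * (p * L ^ 3) := by
      have h0 : (1:ℝ) * (1 / 4) ≤ C₁ * L ^ 3 := mul_le_mul hC₁ hL3 (by norm_num) (by linarith)
      have h00 : (1:ℝ) ≤ 20 * (C₁ * L ^ 3) := by linarith
      have : (1:ℝ) ≤ r * (20 * (C₁ * L ^ 3)) := one_le_mul_of_one_le_of_one_le hr1 h00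
      calc (p : ℝ) * 1 ≤ p * (r * (20 * (C₁ * L ^ 3))) := mul_le_mul_of_nonneg_left this hppos.le
        _ = _ := by ring
    linarith
  have hlogp : Real.log p ≤ L := Real.log_le_log hppos hpk
  set X : ℝ := p * L ^ 3 / k with hX
  have hXpos : 0 < X := by positivity
  -- `p M / k ≤ 4 X M`
  have hpX : (p : ℝ) / k * M ≤ 4 * (X * M) := by
    rw [← mul_assoc]
    apply mul_le_mul_of_nonneg_right _ hMpos.le
    rw [hX]
    calc (p : ℝ) / k = p / k * 1 := by ring
      _ ≤ p / k * (4 * L ^ 3) := mul_le_mul_of_nonneg_left (by linarith) (by positivity)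
      _ = _ := by ring
  -- `p log k ≤ 4 X M`
  have hpL : (p : ℝ) * L ≤ 4 * (X * M) := by
    have h1 : L ≤ 4 * L ^ 3 * Real.log 2 := by
      have h2 : (1:ℝ) ≤ 4 * L ^ 2 * Real.log 2 := by
        have h18 := mul_le_mul hLsq hlog2.le (by norm_num) (sq_nonneg L)
        norm_num at h18 ⊢
        linarith
      calc L = 1 * L := by ring
        _ ≤ (4 * L ^ 2 * Real.log 2) * L := mul_le_mul_of_nonneg_right h2 hLpos.le
        _ = _ := by ring
    calc (p : ℝ) * L ≤ p * (4 * L ^ 3 * Real.log 2) := mul_le_mul_of_nonneg_left h1 hppos.le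
      _ = 4 * (X * (k * Real.log 2)) := by rw [hX]; field_simp
      _ ≤ 4 * (X * M) := by
          apply mul_le_mul_of_nonneg_left _ (by norm_num)
          exact mul_le_mul_of_nonneg_left hM hXpos.le
  have hXM : 0 < X * M := by positivity
  have hCr3 : (1:ℝ) ≤ C₁ * r ^ 3 := one_le_mul_of_one_le_of_one_le hC₁ hr3
  have hUpos : 1 ≤ U := by
    rcases Nat.eq_zero_or_pos U with h0 | h0
    · exfalso
      rw [h0, zero_pow (by omega)] at hU
      rcases hU with h | ⟨h, -⟩
      · omega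
      · rcases Nat.mul_eq_zero.mp h.symm with h' | h' <;> omega
    · exact h0
  have hU0 : (0:ℝ) < U := by exact_mod_cast hUpos
  have hN0 : (0:ℝ) < N := by exact_mod_cast hN
  have hc0 : (0:ℝ) < c := by exact_mod_cast hc
  have hlogc : Real.log c ≤ M / k := by
    rw [le_div_iff₀ hkpos, mul_comm]; exact hcM
  rcases hU with hU | ⟨hU, hrp⟩
  · -- first case
    have hlogN : Real.log N = k * Real.log U := by
      rw [← hU, Nat.cast_pow, Real.log_pow]
    have hne' : c ≠ U ^ p := by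
      intro h
      apply hne
      rw [h, ← hU, ← pow_mul, ← pow_mul, mul_comm]
    have hrU : ¬ r ∣ U := by
      intro h
      apply hrN
      rw [← hU]
      exact dvd_pow h (by omega)
    have hrUp : ¬ r ∣ U ^ p := fun h => hrU (hr.dvd_of_dvd_pow h)
    have hlogU : Real.log ((U ^ p : ℕ) : ℝ) ≤ 2 * M / k := by
      rw [Nat.cast_pow, Real.log_pow, le_div_iff₀ hkpos]
      have h1 : (p : ℝ) * (k * Real.log U) ≤ M + p * Real.log 2 := by rw [← hlogN]; exact hNM
      linarith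
    have hlogc2 : Real.log c ≤ 2 * M / k := by
      refine hlogc.trans ?_
      apply div_le_div_of_nonneg_right _ hkpos.le
      linarith
    obtain ⟨V', hV1, hV2⟩ := hLtr r c (U ^ p) k ν hr hrc hrUp (by omega) (by
      have h1 : ((U ^ p : ℕ) : ℤ) ^ (2 * k) = (N : ℤ) ^ (2 * p) := by
        rw [← hU]; push_cast; ring
      rw [h1]
      exact hmod)
    have hn1 : 1 ≤ 2 * (r - 1) := by have := hr.two_le; omega
    have h5 := log_dvd_le hr hn1 hc (Nat.one_le_pow _ _ hUpos) hne' hV1 hlogc2 hlogU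
    have h6 : ν * Real.log r ≤ L + V' * Real.log r := by
      have h7 : ((r : ℝ)) ^ ν ≤ k * (r : ℝ) ^ V' := by exact_mod_cast hV2
      have h8 := Real.log_le_log (by positivity) h7
      rw [Real.log_pow, Real.log_mul hkpos.ne' (by positivity), Real.log_pow] at h8
      exact h8
    have h9 : ((2 * (r - 1) : ℕ) : ℝ) ≤ 2 * r := by
      have : 2 * (r - 1) ≤ 2 * r := by omega
      exact_mod_cast this
    have h10 : ((2 * (r - 1) : ℕ) : ℝ) * (2 * M / k) ≤ (2 * r) * (2 * M / k) :=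
      mul_le_mul_of_nonneg_right h9 (by positivity)
    have h11 : (p : ℝ) * (ν * Real.log r) ≤ p * (L + (2 * r) * (2 * M / k)) :=
      mul_le_mul_of_nonneg_left (by linarith) hppos.le
    have h12 : (p : ℝ) * (L + (2 * r) * (2 * M / k)) = p * L + 4 * r * (p / k * M) := by
      field_simp
      ring
    have h13 : 4 * (r : ℝ) * (p / k * M) ≤ 4 * r * (4 * (X * M)) :=
      mul_le_mul_of_nonneg_left hpX (by positivity)
    have h14 : (r : ℝ) * (X * M) ≤ C₁ * r ^ 3 * (X * M) := by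
      apply mul_le_mul_of_nonneg_right _ hXM.le
      calc (r : ℝ) ≤ r ^ 3 := hrr3
        _ ≤ C₁ * r ^ 3 := le_mul_of_one_le_left (by positivity) hC₁
    have h15 : X * M ≤ C₁ * r ^ 3 * (X * M) := le_mul_of_one_le_left hXM.le hCr3
    have h16 : 60 * C₁ * r ^ 3 * X * M = 60 * (C₁ * r ^ 3 * (X * M)) := by ring
    rw [h16]
    linarith
  · -- second case
    have hrU : ¬ r ∣ U := by
      intro h
      have h1 : r ∣ p * N := by
        rw [← hU]
        exact dvd_pow h (by omega)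
      rcases hr.dvd_mul.mp h1 with h2 | h2
      · exact hrp ((Nat.prime_dvd_prime_iff_eq hr hp).mp h2)
      · exact hrN h2
    have hrUp : ¬ r ∣ U ^ p := fun h => hrU (hr.dvd_of_dvd_pow h)
    have hrp' : ¬ r ∣ p := fun h => hrp ((Nat.prime_dvd_prime_iff_eq hr hp).mp h)
    have hlogN : Real.log p + Real.log N = k * Real.log U := by
      rw [← Real.log_pow, ← Real.log_mul hppos.ne' hN0.ne']
      congr 1
      exact_mod_cast hU.symm
    set g := Nat.gcd k p with hg
    have hgpos : 0 < g := Nat.gcd_pos_of_pos_left _ (by omega)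
    have hgp : g ≤ p := Nat.le_of_dvd (by omega) (Nat.gcd_dvd_right _ _)
    have hgpR : (g : ℝ) ≤ p := by exact_mod_cast hgp
    obtain ⟨l, hl⟩ : ∃ l, k = g * l := Nat.gcd_dvd_left k p
    obtain ⟨k₀, hk₀⟩ : ∃ k₀, p = g * k₀ := Nat.gcd_dvd_right k p
    have hgR : (1:ℝ) ≤ g := by exact_mod_cast hgpos
    have hlpos : 1 ≤ l := by
      rcases Nat.eq_zero_or_pos l with h0 | h0
      · rw [h0, mul_zero] at hl; omega
      · exact h0
    have hk₀pos : 1 ≤ k₀ := by
      rcases Nat.eq_zero_or_pos k₀ with h0 | h0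
      · rw [h0, mul_zero] at hk₀; omega
      · exact h0
    have hcop : Nat.Coprime l k₀ := by
      have h1 : Nat.gcd (g * l) (g * k₀) = g * 1 := by rw [← hl, ← hk₀, mul_one]
      rw [Nat.gcd_mul_left] at h1
      exact Nat.eq_of_mul_eq_mul_left hgpos h1
    have hkl : (k : ℝ) = g * l := by exact_mod_cast hl
    have hpk₀ : (p : ℝ) = g * k₀ := by exact_mod_cast hk₀
    have hlR : (1:ℝ) ≤ l := by exact_mod_cast hlpos
    have hlk : (l : ℝ) ≤ k := by
      rw [hkl]
      exact le_mul_of_one_le_left (by linarith) hgR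
    have hlogl : Real.log l ≤ L := Real.log_le_log (by linarith) hlk
    have hlogl0 : 0 ≤ Real.log l := Real.log_nonneg hlR
    have h1l : 1 + Real.log l ≤ 2.5 * L := by
      norm_num at hL069 ⊢
      linarith
    have hlogp1 : 1 ≤ Real.log p := by
      have h1 : (3:ℝ) ≤ p := by exact_mod_cast h3
      rw [Real.le_log_iff_exp_le hppos]
      have := Real.exp_one_lt_d9
      linarith
    have hA1 : 1 ≤ 6 * M / k := by
      rw [le_div_iff₀ hkpos]
      have h1 : (k : ℝ) * 0.69 ≤ k * Real.log 2 := mul_le_mul_of_nonneg_left (by linarith) hkpos.le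
      linarith
    have hplogp : (p : ℝ) * Real.log p ≤ 4 * M := by
      have h1 : (p : ℝ) * Real.log p ≤ p * L := mul_le_mul_of_nonneg_left hlogp hppos.le
      have h2 : (p : ℝ) * L ≤ k := by
        have h3 : (p : ℝ) * L ≤ 20 * C₁ * r * (p * L ^ 3) := by
          have h4 : L ≤ 20 * C₁ * r * L ^ 3 := by
            have h5 : (1:ℝ) ≤ 20 * L ^ 2 := by linarith
            have h6 : (1:ℝ) ≤ C₁ * r := one_le_mul_of_one_le_of_one_le hC₁ hr1
            have h7 : (1:ℝ) ≤ (C₁ * r) * (20 * L ^ 2) := one_le_mul_of_one_le_of_one_le h6 h5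
            calc L = 1 * L := by ring
              _ ≤ ((C₁ * r) * (20 * L ^ 2)) * L := mul_le_mul_of_nonneg_right h7 hLpos.le
              _ = _ := by ring
          calc (p : ℝ) * L ≤ p * (20 * C₁ * r * L ^ 3) := mul_le_mul_of_nonneg_left h4 hppos.le
            _ = _ := by ring
        linarith
      have h1 : (k : ℝ) * 0.69 ≤ k * Real.log 2 := mul_le_mul_of_nonneg_left (by linarith) hkpos.le
      linarith
    have hlogX₁ : Real.log ((U ^ p : ℕ) : ℝ) ≤ 6 * M / k := by
      rw [Nat.cast_pow, Real.log_pow, le_div_iff₀ hkpos]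
      have h1 : (p : ℝ) * Real.log U * k = p * Real.log p + p * Real.log N := by
        calc (p : ℝ) * Real.log U * k = p * (k * Real.log U) := by ring
          _ = p * (Real.log p + Real.log N) := by rw [hlogN]
          _ = _ := by ring
      rw [h1]
      linarith
    have hlogX₂ : Real.log c ≤ 6 * M / k := by
      refine hlogc.trans ?_
      apply div_le_div_of_nonneg_right _ hkpos.le
      linarith
    have hAL : (k₀ : ℝ) ≤ 6 * M / k * l := by
      have h1 : (g : ℝ) * k₀ ≤ g * l := by rw [← hkl, ← hpk₀]; exact hpk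
      have h2 : (k₀ : ℝ) ≤ l := le_of_mul_le_mul_left h1 (by linarith)
      have h3 := mul_le_mul_of_nonneg_right hA1 (by linarith : (0:ℝ) ≤ l)
      linarith
    have hlbig : 20 * C₁ * r * L ^ 3 ≤ l := by
      have h1 : (g : ℝ) * (20 * C₁ * r * L ^ 3) ≤ g * l := by
        rw [← hkl]
        calc (g : ℝ) * (20 * C₁ * r * L ^ 3) ≤ p * (20 * C₁ * r * L ^ 3) :=
              mul_le_mul_of_nonneg_right hgpR (by positivity)
          _ = 20 * C₁ * r * (p * L ^ 3) := by ring
          _ ≤ k := hreg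
      exact le_of_mul_le_mul_left h1 (by linarith)
    have hprod : Real.log p * (1 + Real.log l) ≤ 2.5 * L ^ 2 := by
      calc Real.log p * (1 + Real.log l) ≤ L * (2.5 * L) :=
            mul_le_mul hlogp (by linarith) (by linarith) hLpos.le
        _ = _ := by ring
    have hcond : C₁ * r * Real.log p * (1 + Real.log l) ≤ l := by
      have h1 : C₁ * r * Real.log p * (1 + Real.log l) ≤ C₁ * r * (2.5 * L ^ 2) := by
        rw [mul_assoc]
        exact mul_le_mul_of_nonneg_left hprod (by positivity)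
      have h2 : C₁ * r * (2.5 * L ^ 2) ≤ 20 * C₁ * r * L ^ 3 := by
        have h3 : 2.5 * L ^ 2 ≤ 20 * L ^ 3 := by
          have : L ^ 3 = L ^ 2 * L := by ring
          have h4 := mul_le_mul_of_nonneg_left hL069 (sq_nonneg L)
          linarith [sq_nonneg L]
        calc C₁ * r * (2.5 * L ^ 2) ≤ C₁ * r * (20 * L ^ 3) :=
              mul_le_mul_of_nonneg_left h3 (by positivity)
          _ = _ := by ring
      linarith
    have hdiv : (r : ℤ) ^ ν ∣ (((U ^ p : ℕ) : ℤ) ^ l) ^ (2 * g) - ((c : ℤ) ^ l * (p : ℤ) ^ k₀) ^ (2 * g) := by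
      have h1 : (((U ^ p : ℕ) : ℤ) ^ l) ^ (2 * g) = ((p : ℤ) * N) ^ (2 * p) := by
        have h2 : ((p : ℤ) * N) = (U : ℤ) ^ k := by exact_mod_cast hU.symm
        rw [h2]
        push_cast
        rw [← pow_mul, ← pow_mul, ← pow_mul]
        congr 1
        calc p * (l * (2 * g)) = (g * l) * (2 * p) := by ring
          _ = _ := by rw [← hl]
      have h2 : ((c : ℤ) ^ l * (p : ℤ) ^ k₀) ^ (2 * g) = (p : ℤ) ^ (2 * p) * (c : ℤ) ^ (2 * k) := by
        rw [mul_pow, ← pow_mul, ← pow_mul, mul_comm]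
        congr 2
        · calc k₀ * (2 * g) = 2 * (g * k₀) := by ring
            _ = _ := by rw [← hk₀]
        · calc l * (2 * g) = 2 * (g * l) := by ring
            _ = _ := by rw [← hl]
      rw [h1, h2, mul_pow, ← mul_sub]
      apply Dvd.dvd.mul_left
      have := dvd_neg.mpr hmod
      rwa [neg_sub] at this
    have hq := hArr r (U ^ p) c p k₀ l g ν (6 * M / k) (Real.log p) hr hrUp hrc hrp'
      (by omega) hk₀pos hlpos hgpos hcop hA1 hlogp1 hlogX₁ hlogX₂ le_rfl hAL hcond hdiv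
    have hlogg : Real.log g ≤ L := (Real.log_le_log (by linarith) hgpR).trans hlogp
    have h12 : Real.log p * (1 + Real.log l) ^ 2 ≤ 6.25 * L ^ 3 := by
      calc Real.log p * (1 + Real.log l) ^ 2 ≤ L * (2.5 * L) ^ 2 := by
            apply mul_le_mul hlogp _ (by positivity) hLpos.le
            exact pow_le_pow_left₀ (by linarith) (by linarith) 2
        _ = _ := by ring
    have h13 : C₁ * r ^ 3 * (6 * M / k * Real.log p) * (1 + Real.log l) ^ 2 ≤
        37.5 * (C₁ * r ^ 3 * (L ^ 3 / k * M)) := by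
      calc C₁ * r ^ 3 * (6 * M / k * Real.log p) * (1 + Real.log l) ^ 2
          = (C₁ * r ^ 3 * (6 * M / k)) * (Real.log p * (1 + Real.log l) ^ 2) := by ring
        _ ≤ (C₁ * r ^ 3 * (6 * M / k)) * (6.25 * L ^ 3) := mul_le_mul_of_nonneg_left h12 (by positivity)
        _ = _ := by ring
    have h14 : (p : ℝ) * (ν * Real.log r) ≤ p * (37.5 * (C₁ * r ^ 3 * (L ^ 3 / k * M)) + L) :=
      mul_le_mul_of_nonneg_left (by linarith) hppos.le
    have h15 : (p : ℝ) * (37.5 * (C₁ * r ^ 3 * (L ^ 3 / k * M)) + L) =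
        37.5 * (C₁ * r ^ 3 * (X * M)) + p * L := by
      rw [hX]; ring
    have h15' : X * M ≤ C₁ * r ^ 3 * (X * M) := le_mul_of_one_le_left hXM.le hCr3
    have h16 : 60 * C₁ * r ^ 3 * X * M = 60 * (C₁ * r ^ 3 * (X * M)) := by ring
    rw [h16]
    linarith

/-- **GAP2R** -/
theorem gap2r (hAbm : Stmt_Abm) (hAbp : Stmt_Abp) (hLtr : Stmt_Ltr) (hArr : Stmt_Arr) :
    Stmt_Gap2r := by
  obtain ⟨C₁, hC₁, hArr⟩ := hArr
  refine ⟨60 * C₁, by linarith, ?_⟩
  intro p k A B c r M hp h3 hk hA hB hc hcop hr hrB hcase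
  set ν := padicValNat r B with hν
  have hνB : r ^ ν ∣ B := pow_padicValNat_dvd
  have hνBz : (r : ℤ) ^ ν ∣ (B : ℤ) := by exact_mod_cast hνB
  have hlog2 := Real.log_two_gt_d9
  have hB2 : 2 ≤ B := hr.two_le.trans (Nat.le_of_dvd (by omega) hrB)
  have hB2' : (2 : ℝ) ≤ B := by exact_mod_cast hB2
  have hrA : ¬ r ∣ A := by
    intro h
    have := Nat.dvd_gcd h hrB
    rw [hcop] at this
    exact hr.one_lt.ne' (Nat.dvd_one.mp this)
  have hkpos : (0:ℝ) < k := by exact_mod_cast (by omega : 0 < k)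
  have hppos : (0:ℝ) < p := by exact_mod_cast (by omega : 0 < p)
  have hA0 : (0:ℝ) < A := by exact_mod_cast (by omega : 0 < A)
  have hB0 : (0:ℝ) < B := by exact_mod_cast (by omega : 0 < B)
  have hr2 : (2:ℝ) ≤ r := by exact_mod_cast hr.two_le
  have hr1 : (1:ℝ) ≤ r := by linarith
  have hr0 : (0:ℝ) < r := by linarith
  -- the second alternative excludes `r = p`
  have hrp : ∀ {N U : ℕ}, ¬ r ∣ N → p ∣ U → U ^ k = p * N → r ≠ p := by
    intro N U hrN hpU hU h
    apply hrN
    rw [h]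
    have h1 : p * p ∣ p * N := by
      rw [← hU]
      calc p * p = p ^ 2 := by ring
        _ ∣ U ^ 2 := pow_dvd_pow_of_dvd hpU 2
        _ ∣ U ^ k := pow_dvd_pow U hk
    exact Nat.dvd_of_mul_dvd_mul_left hp.pos h1
  -- congruences
  have hmodN : ∀ {N : ℕ}, ((r : ℤ) ^ ν ∣ (N : ℤ) - A ∨ (r : ℤ) ^ ν ∣ (N : ℤ) + A) →
      (r : ℤ) ^ ν ∣ (N : ℤ) ^ (2 * p) - (A : ℤ) ^ (2 * p) := by
    intro N h
    have h1 : (N : ℤ) ^ 2 - (A : ℤ) ^ 2 ∣ (N : ℤ) ^ (2 * p) - (A : ℤ) ^ (2 * p) := by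
      rw [pow_mul, pow_mul]
      exact sub_dvd_pow_sub_pow _ _ _
    have h2 : (N : ℤ) ^ 2 - (A : ℤ) ^ 2 = ((N : ℤ) - A) * (N + A) := by ring
    rw [h2] at h1
    rcases h with h | h
    · exact (Dvd.dvd.mul_right h _).trans h1
    · exact (Dvd.dvd.mul_left h _).trans h1
  have hmodc : ((r : ℤ) ^ ν ∣ (c : ℤ) ^ k - (A : ℤ) ^ p ∨ (r : ℤ) ^ ν ∣ (c : ℤ) ^ k + (A : ℤ) ^ p) →
      (r : ℤ) ^ ν ∣ (c : ℤ) ^ (2 * k) - (A : ℤ) ^ (2 * p) := by
    intro h
    have h2 : (c : ℤ) ^ (2 * k) - (A : ℤ) ^ (2 * p) =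
        ((c : ℤ) ^ k - (A : ℤ) ^ p) * ((c : ℤ) ^ k + (A : ℤ) ^ p) := by ring
    rw [h2]
    rcases h with h | h
    · exact Dvd.dvd.mul_right h _
    · exact Dvd.dvd.mul_left h _
  have hBp : (r : ℤ) ^ ν ∣ (B : ℤ) ^ p := hνBz.trans (dvd_pow_self _ (by omega))
  have hrBp : r ∣ B ^ p := dvd_pow hrB (by omega)
  obtain ⟨N, U, hN, hrc, hrN, hmod, hne, hcM, hNM, hBM, hc2, hU⟩ : ∃ N U : ℕ, 1 ≤ N ∧ ¬ r ∣ c ∧
      ¬ r ∣ N ∧ (r : ℤ) ^ ν ∣ (c : ℤ) ^ (2 * k) - (N : ℤ) ^ (2 * p) ∧ c ^ k ≠ N ^ p ∧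
      k * Real.log c ≤ M ∧ p * Real.log N ≤ M + p * Real.log 2 ∧ p * Real.log B ≤ M ∧ 2 ≤ c ∧
      (U ^ k = N ∨ (U ^ k = p * N ∧ r ≠ p)) := by
    rcases hcase with ⟨heq, hMeq⟩ | ⟨heq, hMeq⟩ | ⟨heq, hMeq⟩
    · -- `A ^ p + B ^ p = c ^ k`
      have hrc : ¬ r ∣ c := by
        intro h
        have h1 : r ∣ A ^ p + B ^ p := by rw [heq]; exact dvd_pow h (by omega)
        have h2 : r ∣ A ^ p := (Nat.dvd_add_left hrBp).mp h1
        exact hrA (hr.dvd_of_dvd_pow h2)
      have hrN : ¬ r ∣ A + B := by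
        intro h
        exact hrA ((Nat.dvd_add_left hrB).mp h)
      have hc2 : 2 ≤ c := by
        by_contra hlt
        have : c = 1 := by omega
        rw [this, one_pow] at heq
        have h1 := Nat.one_le_pow p A hA
        have h2 := Nat.one_le_pow p B hB
        omega
      have heqz : (A : ℤ) ^ p + (B : ℤ) ^ p = (c : ℤ) ^ k := by exact_mod_cast heq
      have hmod : (r : ℤ) ^ ν ∣ (c : ℤ) ^ (2 * k) - ((A + B : ℕ) : ℤ) ^ (2 * p) := by
        have h1 := hmodc (Or.inl (by rw [← heqz]; simpa using hBp))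
        have h2 := hmodN (N := A + B) (Or.inl (by push_cast; simpa using hνBz))
        have h3 := dvd_sub h1 h2
        rwa [sub_sub_sub_cancel_right] at h3
      have hM1 : M = k * Real.log c := by rw [hMeq, Real.log_pow]
      have hBle : p * Real.log B ≤ M := by
        rw [hMeq, ← Real.log_pow]
        apply Real.log_le_log (by positivity)
        have : B ^ p ≤ c ^ k := by omega
        exact_mod_cast this
      have hAle : p * Real.log A ≤ M := by
        rw [hMeq, ← Real.log_pow]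
        apply Real.log_le_log (by positivity)
        have : A ^ p ≤ c ^ k := by omega
        exact_mod_cast this
      have hNle : p * Real.log ((A + B : ℕ) : ℝ) ≤ M + p * Real.log 2 := by
        rcases le_total A B with hAB | hAB
        · have h1 : Real.log ((A + B : ℕ) : ℝ) ≤ Real.log (2 * B) := by
            apply Real.log_le_log (by positivity)
            have : A + B ≤ 2 * B := by omega
            exact_mod_cast this
          rw [Real.log_mul (by norm_num) hB0.ne'] at h1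
          have := mul_le_mul_of_nonneg_left h1 hppos.le
          linarith
        · have h1 : Real.log ((A + B : ℕ) : ℝ) ≤ Real.log (2 * A) := by
            apply Real.log_le_log (by positivity)
            have : A + B ≤ 2 * A := by omega
            exact_mod_cast this
          rw [Real.log_mul (by norm_num) hA0.ne'] at h1
          have := mul_le_mul_of_nonneg_left h1 hppos.le
          linarith
      have hne : c ^ k ≠ (A + B) ^ p := by
        rw [← heq]
        exact (pow_add_ltR hA hB (by omega)).ne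
      rcases hAbp p A B c k hp h3 hcop hB hA (by omega) heq with ⟨U, h⟩ | ⟨U, hpU, h⟩
      · exact ⟨A + B, U, by omega, hrc, hrN, hmod, hne, hM1.ge, hNle, hBle, hc2, Or.inl h.symm⟩
      · exact ⟨A + B, U, by omega, hrc, hrN, hmod, hne, hM1.ge, hNle, hBle, hc2,
          Or.inr ⟨h.symm, hrp hrN hpU h.symm⟩⟩
    · -- `B ^ p + c ^ k = A ^ p`
      have hBA : B < A := by
        have h1 : B ^ p < A ^ p := by
          have := Nat.pow_pos (n := k) hc
          omega
        exact lt_of_pow_lt_pow_left₀ p (by omega) h1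
      have hlt := pow_add_ltR hB (by omega : 1 ≤ A - B) (by omega : 2 ≤ p)
      rw [Nat.add_sub_cancel' hBA.le] at hlt
      have hrc : ¬ r ∣ c := by
        intro h
        have h1 : r ∣ B ^ p + c ^ k := dvd_add hrBp (dvd_pow h (by omega))
        rw [heq] at h1
        exact hrA (hr.dvd_of_dvd_pow h1)
      have hrN : ¬ r ∣ A - B := by
        intro h
        apply hrA
        have h1 : r ∣ (A - B) + B := dvd_add h hrB
        rwa [Nat.sub_add_cancel hBA.le] at h1
      have hc2 : 2 ≤ c := by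
        by_contra hlt2
        have : c = 1 := by omega
        rw [this, one_pow] at heq
        have h2 := Nat.one_le_pow p (A - B) (by omega)
        omega
      have heqz : (B : ℤ) ^ p + (c : ℤ) ^ k = (A : ℤ) ^ p := by exact_mod_cast heq
      have hmod : (r : ℤ) ^ ν ∣ (c : ℤ) ^ (2 * k) - ((A - B : ℕ) : ℤ) ^ (2 * p) := by
        have h1 := hmodc (Or.inl (by
          rw [← heqz, show (c : ℤ) ^ k - ((B : ℤ) ^ p + (c : ℤ) ^ k) = -(B : ℤ) ^ p by ring]
          exact hBp.neg_right))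
        have h2 := hmodN (N := A - B) (Or.inl (by
          rw [Nat.cast_sub hBA.le, show (A : ℤ) - B - A = -(B : ℤ) by ring]
          exact hνBz.neg_right))
        have h3 := dvd_sub h1 h2
        rwa [sub_sub_sub_cancel_right] at h3
      have hBle : p * Real.log B ≤ M := by
        rw [hMeq, ← Real.log_pow]
        apply Real.log_le_log (by positivity)
        have : B ^ p ≤ A ^ p := by omega
        exact_mod_cast this
      have hcle : k * Real.log c ≤ M := by
        rw [hMeq, ← Real.log_pow]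
        apply Real.log_le_log (by positivity)
        have : c ^ k ≤ A ^ p := by omega
        exact_mod_cast this
      have hAle : p * Real.log A = M := by
        rw [hMeq, Real.log_pow]
      have hNle : p * Real.log ((A - B : ℕ) : ℝ) ≤ M + p * Real.log 2 := by
        have h1 : Real.log ((A - B : ℕ) : ℝ) ≤ Real.log A := by
          apply Real.log_le_log
          · exact_mod_cast (by omega : 0 < A - B)
          · exact_mod_cast (by omega : A - B ≤ A)
        have := mul_le_mul_of_nonneg_left h1 hppos.le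
        have h3 : 0 ≤ p * Real.log 2 := by positivity
        linarith
      have hne : c ^ k ≠ (A - B) ^ p := by omega
      rcases hAbm p A B c k hp h3 hcop hB hBA (by omega) heq with
        ⟨U, v, -, h, -, -⟩ | ⟨U, v, hpU, h, -⟩
      · exact ⟨A - B, U, by omega, hrc, hrN, hmod, hne, hcle, hNle, hBle, hc2, Or.inl (by omega)⟩
      · have hU : U ^ k = p * (A - B) := by rw [Nat.mul_sub]; omega
        exact ⟨A - B, U, by omega, hrc, hrN, hmod, hne, hcle, hNle, hBle, hc2,
          Or.inr ⟨hU, hrp hrN hpU hU⟩⟩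
    · -- `c ^ k + A ^ p = B ^ p`
      have hAB : A < B := by
        have h1 : A ^ p < B ^ p := by
          have := Nat.pow_pos (n := k) hc
          omega
        exact lt_of_pow_lt_pow_left₀ p (by omega) h1
      have hlt := pow_add_ltR hA (by omega : 1 ≤ B - A) (by omega : 2 ≤ p)
      rw [Nat.add_sub_cancel' hAB.le] at hlt
      have hrc : ¬ r ∣ c := by
        intro h
        have h1 : r ∣ c ^ k + A ^ p := by rw [heq]; exact hrBp
        have h2 : r ∣ A ^ p := (Nat.dvd_add_right (dvd_pow h (by omega))).mp h1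
        exact hrA (hr.dvd_of_dvd_pow h2)
      have hrN : ¬ r ∣ B - A := by
        intro h
        apply hrA
        have h1 : r ∣ B - (B - A) := Nat.dvd_sub hrB h
        rwa [Nat.sub_sub_self hAB.le] at h1
      have hc2 : 2 ≤ c := by
        by_contra hlt2
        have : c = 1 := by omega
        rw [this, one_pow] at heq
        have h2 := Nat.one_le_pow p (B - A) (by omega)
        omega
      have heqz : (c : ℤ) ^ k + (A : ℤ) ^ p = (B : ℤ) ^ p := by exact_mod_cast heq
      have hmod : (r : ℤ) ^ ν ∣ (c : ℤ) ^ (2 * k) - ((B - A : ℕ) : ℤ) ^ (2 * p) := by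
        have h1 := hmodc (Or.inr (by rw [heqz]; exact hBp))
        have h2 := hmodN (N := B - A) (Or.inr (by
          rw [Nat.cast_sub hAB.le, sub_add_cancel]
          exact hνBz))
        have h3 := dvd_sub h1 h2
        rwa [sub_sub_sub_cancel_right] at h3
      have hBle : p * Real.log B ≤ M := by
        rw [hMeq, ← Real.log_pow]
      have hcle : k * Real.log c ≤ M := by
        rw [hMeq, ← Real.log_pow]
        apply Real.log_le_log (by positivity)
        have : c ^ k ≤ B ^ p := by omega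
        exact_mod_cast this
      have hNle : p * Real.log ((B - A : ℕ) : ℝ) ≤ M + p * Real.log 2 := by
        have h1 : Real.log ((B - A : ℕ) : ℝ) ≤ Real.log B := by
          apply Real.log_le_log
          · exact_mod_cast (by omega : 0 < B - A)
          · exact_mod_cast (by omega : B - A ≤ B)
        have := mul_le_mul_of_nonneg_left h1 hppos.le
        have h3 : 0 ≤ p * Real.log 2 := by positivity
        linarith
      have hne : c ^ k ≠ (B - A) ^ p := by omega
      rcases hAbm p B A c k hp h3 hcop.symm hA hAB (by omega) (by rw [add_comm]; exact heq) with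
        ⟨U, v, -, h, -, -⟩ | ⟨U, v, hpU, h, -⟩
      · exact ⟨B - A, U, by omega, hrc, hrN, hmod, hne, hcle, hNle, hBle, hc2, Or.inl (by omega)⟩
      · have hU : U ^ k = p * (B - A) := by rw [Nat.mul_sub]; omega
        exact ⟨B - A, U, by omega, hrc, hrN, hmod, hne, hcle, hNle, hBle, hc2,
          Or.inr ⟨hU, hrp hrN hpU hU⟩⟩
  have hc2' : (2 : ℝ) ≤ c := by exact_mod_cast hc2
  have hM : k * Real.log 2 ≤ M :=
    (mul_le_mul_of_nonneg_left (Real.log_le_log (by norm_num) hc2') hkpos.le).trans hcM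
  have hMp : p * Real.log 2 ≤ M :=
    (mul_le_mul_of_nonneg_left (Real.log_le_log (by norm_num) hB2') hppos.le).trans hBM
  have hMpos : 0 < M := lt_of_lt_of_le (by positivity) hM
  rcases lt_or_ge (k : ℝ) (20 * C₁ * r * (p * Real.log k ^ 3)) with hreg | hreg
  · -- trivial range
    have h0 : ν * Real.log r ≤ Real.log B := by
      rw [← Real.log_pow]
      apply Real.log_le_log (by positivity)
      exact_mod_cast Nat.le_of_dvd (by omega) hνB
    have h1 : (p : ℝ) * ν * Real.log r ≤ M := by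
      have := mul_le_mul_of_nonneg_left h0 hppos.le
      rw [mul_assoc]
      linarith
    refine h1.trans ?_
    have hk1 : (1 : ℝ) ≤ k := by exact_mod_cast (by omega : 1 ≤ k)
    have hL0 : 0 ≤ Real.log k := Real.log_nonneg hk1
    have h2 : (1:ℝ) ≤ 20 * C₁ * r * (p * Real.log k ^ 3) / k := (one_le_div hkpos).mpr hreg.le
    have hrr3 : (r:ℝ) ≤ (r:ℝ) ^ 3 := by
      have : (r:ℝ) ^ 1 ≤ (r:ℝ) ^ 3 := pow_le_pow_right₀ hr1 (by norm_num)
      rwa [pow_one] at this
    have h3 : 20 * C₁ * r * (p * Real.log k ^ 3) / k ≤ 60 * C₁ * r ^ 3 * (p * Real.log k ^ 3 / k) := by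
      have h4 : 20 * C₁ * r * (p * Real.log k ^ 3) / k = 20 * (C₁ * (p * Real.log k ^ 3 / k)) * r := by
        ring
      have h5 : 60 * C₁ * r ^ 3 * (p * Real.log k ^ 3 / k) =
          60 * (C₁ * (p * Real.log k ^ 3 / k)) * r ^ 3 := by ring
      rw [h4, h5]
      have h6 : 0 ≤ C₁ * (p * Real.log k ^ 3 / k) := by positivity
      apply mul_le_mul (by linarith) hrr3 hr0.le (by positivity)
    exact le_mul_of_one_le_left hMpos.le (h2.trans h3)
  · exact coreR C₁ hC₁ hArr hLtr p k c N U r ν M hp h3 hk hc hN hr hrc hrN hmod hne hcM hNM hM hMp hU hreg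

end Pool.Agent.Work.MP_2738db_nt_Y.helper93
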