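import Pool.Agent.Work.MP_2738db_nt_Y_helper93.DetC

set_option autoImplicit false

/-!
The determinant inequality for `β / conj β` and `i`, `β` a Gaussian integer (block ARG of
theorem Y, helper93).
-/

namespace Pool.Agent.Work.MP_2738db_nt_Y.helper93

open Finset BigOperators ComplexConjugate

lemma norm_gaussian_ge_one {d : GaussianInt} (hd : d ≠ 0) : 1 ≤ ‖GaussianInt.toComplex d‖ := by
  have h1 : (1 : ℤ) ≤ d.norm := by
    have h2 := GaussianInt.norm_pos.mpr hd
    omega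
  have h3 : Complex.normSq (GaussianInt.toComplex d) = ((d.norm : ℤ) : ℝ) := by
    exact (GaussianInt.intCast_real_norm d).symm
  have h4 : (1 : ℝ) ≤ ‖GaussianInt.toComplex d‖ ^ 2 := by
    rw [← Complex.normSq_eq_norm_sq, h3]
    exact_mod_cast h1
  by_contra hc
  rw [not_le] at hc
  have h5 := norm_nonneg (GaussianInt.toComplex d)
  nlinarith

/-- the determinant inequality -/
theorem coreC {k₀ ℓ K L R S Z : ℕ} (β : GaussianInt) (hβ : β ≠ 0)
    (hroot : ∀ a < L, ∀ b < L, (GaussianInt.toComplex β / conj (GaussianInt.toComplex β)) ^ a =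
      (GaussianInt.toComplex β / conj (GaussianInt.toComplex β)) ^ b → a = b)
    (hcop : Nat.Coprime ℓ k₀) (hℓ : 1 ≤ ℓ)
    (hR : R ≤ ℓ) (hKL : K * L ≤ R * S) (hK : 1 ≤ K) (hL : 1 ≤ L)
    (hZ : (R + L) * k₀ + S * ℓ ≤ Z) (B : ℝ) (hB : ∀ k < K, ∀ z ≤ Z, (Nat.choose z k : ℝ) ≤ B)
    (lam w W h : ℝ) (hw : w = Real.pi / (2 * ℓ))
    (hlam : GaussianInt.toComplex β / conj (GaussianInt.toComplex β) =
      Complex.exp (((k₀ * w + lam : ℝ) : ℂ) * Complex.I))
    (hsm : |lam| * (L * (R + L)) * 2 ^ (K * L + 1) ≤ 1) (hW : Z * w ≤ W)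
    (hh : Real.log ‖GaussianInt.toComplex β‖ ≤ h) :
    2 ^ (K * K * ∑ l ∈ range L, l) ≤ ((K * L).factorial * (2 * B) ^ (K * L)) *
      Real.exp ((K * ∑ l ∈ range L, l : ℕ) * (2 * W + (R + L) * h)) := by
  classical
  have hℓpos : (0 : ℝ) < ℓ := by exact_mod_cast hℓ
  have hw0 : 0 ≤ w := by
    rw [hw]
    have := Real.pi_pos
    positivity
  have hYw : Complex.I = Complex.exp (((ℓ * w : ℝ) : ℂ) * Complex.I) := by
    have h1 : (ℓ : ℝ) * w = Real.pi / 2 := by rw [hw]; field_simp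
    rw [h1]
    push_cast
    rw [Complex.exp_pi_div_two_mul_I]
  have hW0 : 0 ≤ W := le_trans (by positivity) hW
  set b : ℂ := GaussianInt.toComplex β with hb
  have hb0 : b ≠ 0 := by
    rw [hb]
    intro h0
    exact hβ ((GaussianInt.toComplex_eq_zero).mp h0)
  have hcb0 : conj b ≠ 0 := by
    rw [Ne, map_eq_zero]
    exact hb0
  set x : ℂ := b / conj b with hx
  have hx0 : x ≠ 0 := div_ne_zero hb0 hcb0
  let zz : Fin (R + L) × Fin S → ℕ := fun t => (t.1 : ℕ) * k₀ + (t.2 : ℕ) * ℓ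
  have hzz : ∀ t, zz t ≤ Z := by
    intro t
    have h1 : (t.1 : ℕ) * k₀ ≤ (R + L) * k₀ := Nat.mul_le_mul_right _ t.1.2.le
    have h2 : (t.2 : ℕ) * ℓ ≤ S * ℓ := Nat.mul_le_mul_right _ t.2.2.le
    simp only [zz]; omega
  let AC : Matrix (Fin K × Fin L) (Fin (R + L) × Fin S) ℂ := Matrix.of fun i t =>
    (Nat.choose (zz t) i.1 : ℂ) * (x ^ (t.1 : ℕ) * Complex.I ^ (t.2 : ℕ)) ^ (i.2 : ℕ)
  obtain ⟨g, hg⟩ := exists_minor AC (by
    intro c hc
    apply zero_est_tr x Complex.I k₀ ℓ hx0 Complex.I_ne_zero hroot hcop hR hKL hK hL c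
    intro r hr t ht
    have := hc (⟨r, hr⟩, ⟨t, ht⟩)
    rw [← this]
    apply Finset.sum_congr rfl
    intro i _
    simp [AC, zz])
  -- the Gaussian integer matrix
  let I0 : GaussianInt := ⟨0, 1⟩
  have hI0 : GaussianInt.toComplex I0 = Complex.I := by
    simp [I0, GaussianInt.toComplex_def]
  let A : Matrix (Fin K × Fin L) (Fin K × Fin L) GaussianInt := Matrix.of fun i j =>
    (Nat.choose (zz (g j)) i.1 : GaussianInt) *
      (β ^ ((g j).1 : ℕ) * (star β) ^ (R + L - (g j).1 : ℕ) * I0 ^ ((g j).2 : ℕ)) ^ (i.2 : ℕ)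
  have hA : ∀ i j, GaussianInt.toComplex (A i j) =
      ((conj b) ^ (R + L)) ^ (i.2 : ℕ) * AC i (g j) := by
    intro i j
    simp only [A, AC, Matrix.of_apply, map_mul, map_pow, map_natCast, hI0]
    have h1 : GaussianInt.toComplex (star β) = conj b := by
      rw [hb, GaussianInt.toComplex_star]
    rw [h1, ← hb]
    have h2 : b ^ ((g j).1 : ℕ) * (conj b) ^ (R + L - (g j).1 : ℕ) =
        (conj b) ^ (R + L) * x ^ ((g j).1 : ℕ) := by
      have h3 : (conj b) ^ (R + L) = (conj b) ^ (R + L - (g j).1 : ℕ) * (conj b) ^ ((g j).1 : ℕ) := by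
        rw [← pow_add]; congr 1
        have := (g j).1.2
        omega
      rw [h3, hx, div_pow]
      field_simp
    rw [h2, mul_assoc, mul_pow _ (x ^ ((g j).1 : ℕ) * Complex.I ^ ((g j).2 : ℕ))]
    ring
  have hdetA : GaussianInt.toComplex A.det =
      (∏ i : Fin K × Fin L, ((conj b) ^ (R + L)) ^ (i.2 : ℕ)) * (AC.submatrix id g).det := by
    rw [RingHom.map_det]
    have h1 : (GaussianInt.toComplex.mapMatrix A) = Matrix.of fun i j =>
        ((conj b) ^ (R + L)) ^ (i.2 : ℕ) * (AC.submatrix id g) i j := by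
      funext i j
      simp only [RingHom.mapMatrix_apply, Matrix.map_apply, Matrix.of_apply, Matrix.submatrix_apply,
        id_eq]
      exact hA i j
    rw [h1, Matrix.det_mul_column]
  have hAne : A.det ≠ 0 := by
    intro h0
    rw [h0, map_zero] at hdetA
    refine (mul_ne_zero ?_ hg) hdetA.symm
    exact Finset.prod_ne_zero_iff.mpr fun i _ => pow_ne_zero _ (pow_ne_zero _ hcb0)
  have hone := norm_gaussian_ge_one hAne
  rw [hdetA, norm_mul, norm_prod] at hone
  have hnb : ‖conj b‖ = ‖b‖ := Complex.norm_conj b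
  have hbpos : 0 < ‖b‖ := norm_pos_iff.mpr hb0
  have hb1 : 1 ≤ ‖b‖ := by rw [hb]; exact norm_gaussian_ge_one hβ
  have hh0 : 0 ≤ h := (Real.log_nonneg hb1).trans hh
  have hsumG : ∑ i : Fin K × Fin L, ((i.2 : ℕ) : ℕ) = K * ∑ l ∈ range L, l := by
    rw [Fintype.sum_prod_type]
    simp only [Finset.sum_const, Finset.card_univ, Fintype.card_fin, smul_eq_mul]
    rw [Fin.sum_univ_eq_sum_range (fun k => k) L]
  have hprodexp : ∀ c : ℝ, ∏ i : Fin K × Fin L, Real.exp ((i.2 : ℕ) * c)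
      = Real.exp ((K * ∑ l ∈ range L, l : ℕ) * c) := by
    intro c
    rw [← Real.exp_sum, ← Finset.sum_mul]
    congr 2
    rw [← hsumG]
    push_cast; rfl
  have hprodb : ∏ i : Fin K × Fin L, ‖((conj b) ^ (R + L)) ^ (i.2 : ℕ)‖ ≤
      Real.exp ((K * ∑ l ∈ range L, l : ℕ) * ((R + L) * h)) := by
    rw [← hprodexp]
    apply Finset.prod_le_prod
    · intro i _; exact norm_nonneg _
    · intro i _
      rw [norm_pow, norm_pow, hnb, ← Real.exp_log hbpos, ← Real.exp_nat_mul, ← Real.exp_nat_mul]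
      apply Real.exp_le_exp.mpr
      apply mul_le_mul_of_nonneg_left _ (by positivity)
      push_cast
      exact mul_le_mul_of_nonneg_left hh (by positivity)
  -- the real main matrix
  let u : Fin K × Fin L → ℂ := fun i => Complex.exp ((((i.2 : ℕ) * w : ℝ) : ℂ) * Complex.I)
  have hu1 : ∀ i, ‖u i‖ = 1 := fun i => Complex.norm_exp_ofReal_mul_I _
  have hum : ∀ i, ‖u i - 1‖ ≤ (i.2 : ℕ) * w := by
    intro i
    have h1 : ‖u i - 1‖ ≤ ‖((i.2 : ℕ) * w : ℝ)‖ := by
      have h2 := Real.norm_exp_I_mul_ofReal_sub_one_le (x := ((i.2 : ℕ) * w : ℝ))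
      simp only [u]
      rw [mul_comm (((((i.2 : ℕ) * w : ℝ)) : ℂ)) Complex.I]
      exact h2
    rwa [Real.norm_of_nonneg (by positivity)] at h1
  let Mn : Matrix (Fin K × Fin L) (Fin K × Fin L) ℂ := Matrix.of fun i j =>
    (Nat.choose (zz (g j)) (i.1 : ℕ) : ℂ) * u i ^ (zz (g j))
  have hentry : ∀ i j, AC i (g j) = Mn i j *
      Complex.exp ((((i.2 : ℕ) * ((g j).1 : ℕ) * lam : ℝ) : ℂ) * Complex.I) := by
    intro i j
    simp only [AC, Mn, Matrix.of_apply, u]
    rw [mul_assoc, ← Complex.exp_nat_mul, ← Complex.exp_add]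
    congr 1
    have h1 : x ^ ((g j).1 : ℕ) * Complex.I ^ ((g j).2 : ℕ) =
        Complex.exp (((((g j).1 : ℕ) * (k₀ * w + lam) + ((g j).2 : ℕ) * (ℓ * w) : ℝ) : ℂ) * Complex.I) := by
      rw [hlam]
      conv_lhs => rw [hYw]
      rw [← Complex.exp_nat_mul, ← Complex.exp_nat_mul, ← Complex.exp_add]
      congr 1
      rw [← hYw]
      push_cast
      ring
    rw [h1, ← Complex.exp_nat_mul]
    congr 1
    simp only [zz]
    push_cast
    ring
  have hcard : Fintype.card (Fin K × Fin L) = K * L := by simp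
  have hBnn : 0 ≤ B := le_trans (by positivity) (hB 0 (by omega) 0 (by omega))
  have hLR0 : (0 : ℝ) ≤ |lam| * (L * (R + L)) := by positivity
  have h2pow : (1 : ℝ) ≤ 2 ^ (K * L + 1) := one_le_pow₀ (by norm_num)
  have hMn : ∀ i j, ‖Mn i j‖ ≤ B := by
    intro i j
    simp only [Mn, Matrix.of_apply]
    rw [norm_mul, norm_pow, hu1, one_pow, mul_one, Complex.norm_natCast]
    exact hB _ i.1.2 _ (hzz (g j))
  have hE : ∀ i j, ‖Mn i j * (Complex.exp ((((i.2 : ℕ) * ((g j).1 : ℕ) * lam : ℝ) : ℂ) * Complex.I) - 1)‖ ≤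
      B * (|lam| * (L * (R + L))) := by
    intro i j
    rw [norm_mul]
    apply mul_le_mul (hMn i j) _ (norm_nonneg _) hBnn
    rw [mul_comm ((((i.2 : ℕ) * ((g j).1 : ℕ) * lam : ℝ) : ℂ)) Complex.I]
    refine (Real.norm_exp_I_mul_ofReal_sub_one_le).trans ?_
    rw [Real.norm_eq_abs, abs_mul, mul_comm]
    apply mul_le_mul_of_nonneg_left _ (abs_nonneg _)
    rw [abs_of_nonneg (by positivity)]
    have h1 : (((g j).1 : ℕ) : ℝ) ≤ R + L := by exact_mod_cast (g j).1.2.le
    have h2 : ((i.2 : ℕ) : ℝ) ≤ L := by exact_mod_cast i.2.2.le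
    exact mul_le_mul h2 h1 (by positivity) (by positivity)
  have hARdet : (AC.submatrix id g).det = (Matrix.of fun i j => (Nat.choose (zz (g j)) (i.1 : ℕ) : ℂ) * u i ^ (zz (g j)) +
      Mn i j * (Complex.exp ((((i.2 : ℕ) * ((g j).1 : ℕ) * lam : ℝ) : ℂ) * Complex.I) - 1)).det := by
    congr 1
    funext i j
    rw [Matrix.submatrix_apply, id_eq, hentry i j]
    simp only [Mn, Matrix.of_apply]
    ring
  have hmain := pert_det_leC Z (K * K * ∑ l ∈ range L, l) (fun i : Fin K × Fin L => (i.1 : ℕ)) u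
      (fun j => zz (g j)) (fun j => hzz (g j)) hu1 (by
        rw [hcard, Fintype.sum_prod_type]
        simp only [Finset.sum_const, Finset.card_univ, Fintype.card_fin, smul_eq_mul]
        rw [← Finset.mul_sum, Fin.sum_univ_eq_sum_range (fun k => k) K]
        have h1 := Finset.sum_range_id_mul_two L
        have h2 := Finset.sum_range_id_mul_two K
        rw [Nat.le_div_iff_mul_le (by norm_num)]
        obtain ⟨L', rfl⟩ : ∃ L', L = L' + 1 := ⟨L - 1, by omega⟩
        obtain ⟨K', rfl⟩ : ∃ K', K = K' + 1 := ⟨K - 1, by omega⟩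
        simp only [Nat.add_sub_cancel] at h1 h2
        have h3 : (K' + 1) * (L' + 1) - 1 = K' * L' + K' + L' := by
          have : (K' + 1) * (L' + 1) = K' * L' + K' + L' + 1 := by ring
          omega
        rw [h3]
        nlinarith [h1, h2])
      (fun i j => Mn i j * (Complex.exp ((((i.2 : ℕ) * ((g j).1 : ℕ) * lam : ℝ) : ℂ) * Complex.I) - 1))
      (fun i => B * (|lam| * (L * (R + L)))) hE
  rw [← hARdet, hcard] at hmain
  have h2pos : (0 : ℝ) < 2 ^ (K * K * ∑ l ∈ range L, l) := by positivity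
  have hexp1 : (0 : ℝ) < Real.exp ((K * ∑ l ∈ range L, l : ℕ) * ((R + L) * h)) := Real.exp_pos _
  have h3 : (2 : ℝ) ^ (K * K * ∑ l ∈ range L, l) ≤
      Real.exp ((K * ∑ l ∈ range L, l : ℕ) * ((R + L) * h)) *
        (‖(AC.submatrix id g).det‖ * 2 ^ (K * K * ∑ l ∈ range L, l)) := by
    rw [← mul_assoc]
    apply le_mul_of_one_le_left h2pos.le
    exact hone.trans (mul_le_mul_of_nonneg_right hprodb (norm_nonneg _))
  refine h3.trans ((mul_le_mul_of_nonneg_left hmain hexp1.le).trans ?_)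
  have h4 : ∏ i : Fin K × Fin L, ((Nat.choose Z (i.1 : ℕ) : ℝ) * (1 + 2 * ‖u i - 1‖) ^ Z +
      2 ^ (K * L) * (B * (|lam| * (L * (R + L)))))
      ≤ ∏ i : Fin K × Fin L, ((2 * B) * Real.exp ((i.2 : ℕ) * (2 * W))) := by
    apply Finset.prod_le_prod
    · intro i _
      positivity
    · intro i _
      have h5 : (1 + 2 * ‖u i - 1‖) ^ Z ≤ Real.exp ((i.2 : ℕ) * (2 * W)) := by
        calc (1 + 2 * ‖u i - 1‖) ^ Z ≤ (Real.exp (2 * ((i.2 : ℕ) * w))) ^ Z := by
              apply pow_le_pow_left₀ (by positivity)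
              have h6 := Real.add_one_le_exp (2 * ((i.2 : ℕ) * w))
              have h7 := hum i
              linarith
          _ = Real.exp (Z * (2 * ((i.2 : ℕ) * w))) := by rw [← Real.exp_nat_mul]
          _ ≤ Real.exp ((i.2 : ℕ) * (2 * W)) := by
              apply Real.exp_le_exp.mpr
              calc (Z : ℝ) * (2 * ((i.2 : ℕ) * w)) = ((i.2 : ℕ) * 2) * (Z * w) := by ring
                _ ≤ ((i.2 : ℕ) * 2) * W := mul_le_mul_of_nonneg_left hW (by positivity)
                _ = _ := by ring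
      have h6 : (Nat.choose Z (i.1 : ℕ) : ℝ) ≤ B := hB _ i.1.2 Z le_rfl
      have h7 : (2 : ℝ) ^ (K * L) * (B * (|lam| * (L * (R + L)))) ≤ B := by
        have h8 : (2 : ℝ) ^ (K * L) * (B * (|lam| * (L * (R + L)))) ≤
            B * (|lam| * (L * (R + L)) * 2 ^ (K * L + 1)) := by
          rw [pow_succ]
          have h9 : 0 ≤ B * (|lam| * (L * (R + L))) * 2 ^ (K * L) := by positivity
          linarith
        exact h8.trans (mul_le_of_le_one_right hBnn hsm)
      have h8 : (1 : ℝ) ≤ Real.exp ((i.2 : ℕ) * (2 * W)) := Real.one_le_exp (by positivity)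
      have h9 : (Nat.choose Z (i.1 : ℕ) : ℝ) * (1 + 2 * ‖u i - 1‖) ^ Z ≤
          B * Real.exp ((i.2 : ℕ) * (2 * W)) := mul_le_mul h6 h5 (by positivity) hBnn
      have h10 : B * 1 ≤ B * Real.exp ((i.2 : ℕ) * (2 * W)) := mul_le_mul_of_nonneg_left h8 hBnn
      linarith
  have h5 : ∏ i : Fin K × Fin L, ((2 * B) * Real.exp ((i.2 : ℕ) * (2 * W))) =
      (2 * B) ^ (K * L) * Real.exp ((K * ∑ l ∈ range L, l : ℕ) * (2 * W)) := by
    rw [Finset.prod_mul_distrib, hprodexp, Finset.prod_const, Finset.card_univ, hcard]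
  rw [h5] at h4
  have h6 : Real.exp ((K * ∑ l ∈ range L, l : ℕ) * (2 * W + (R + L) * h)) =
      Real.exp ((K * ∑ l ∈ range L, l : ℕ) * ((R + L) * h)) *
        Real.exp ((K * ∑ l ∈ range L, l : ℕ) * (2 * W)) := by
    rw [← Real.exp_add]; congr 1; ring
  rw [h6]
  calc Real.exp ((K * ∑ l ∈ range L, l : ℕ) * ((R + L) * h)) * (((K * L).factorial : ℝ) * _)
      ≤ Real.exp ((K * ∑ l ∈ range L, l : ℕ) * ((R + L) * h)) * (((K * L).factorial : ℝ) *
        ((2 * B) ^ (K * L) * Real.exp ((K * ∑ l ∈ range L, l : ℕ) * (2 * W)))) := by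
        apply mul_le_mul_of_nonneg_left _ hexp1.le
        exact mul_le_mul_of_nonneg_left h4 (by positivity)
    _ = _ := by ring

end Pool.Agent.Work.MP_2738db_nt_Y.helper93
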